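import Pool.Agent.Work.MP_0a1f67_ag.Smooth

open scoped Matrix.Norms.Frobenius ContDiff
open Pool.Agent.Work.MP_0a1f67_ag

namespace Pool.Agent.Results.MP_0a1f67_ag.IrreducibleOfSmooth

/-- Question 2: for all graphs `G`, `H` on `n` vertices, if the double Markovian correlation model
`M₁(G, H)` is an embedded submanifold of class `C^k` for some `k ≥ 1` (for example `k = ∞`), then
its Zariski closure in the affine space of real symmetric matrices is irreducible. -/
theorem result (n : ℕ) (G H : SimpleGraph (Fin n)) (k : ℕ∞ω) (hk : 1 ≤ k)
    (hsmooth : IsEmbeddedSubmanifold k (corrModel G H)) :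
    IsZariskiIrreducible (zariskiClosure (corrModel G H)) :=
  irreducible_of_submanifold G H hk hsmooth

end Pool.Agent.Results.MP_0a1f67_ag.IrreducibleOfSmooth
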