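import Pool.Agent.Work.MP_0a1f67_ag.Dim

open scoped Matrix.Norms.Frobenius ENNReal ContDiff
open Pool.Agent.Work.MP_0a1f67_ag

namespace Pool.Agent.Results.MP_0a1f67_ag.SmoothOfMaxDim

/-- Question 1: for all graphs `G`, `H` on `n` vertices, if the (Hausdorff) dimension of the double
Markovian correlation model `M₁(G, H)` is at least `|E_G ∩ E_H|`, then `M₁(G, H)` is an embedded
submanifold, of pure dimension `|E_G ∩ E_H|` and of class `C^k` for every `k` (including
`k = ∞` and the real-analytic class `k = ω`). -/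
theorem result (n : ℕ) (G H : SimpleGraph (Fin n))
    (hdim : ((G.edgeSet ∩ H.edgeSet).ncard : ℝ≥0∞) ≤ dimH (corrModel G H)) (k : ℕ∞ω) :
    IsEmbeddedSubmanifoldOfDim k (G.edgeSet ∩ H.edgeSet).ncard (corrModel G H) :=
  submanifold_of_dim G H hdim k

end Pool.Agent.Results.MP_0a1f67_ag.SmoothOfMaxDim
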